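import Pool.Agent.H21.Dim3

set_option autoImplicit false

namespace Pool.Agent.Results.MP_2d1133_lc.NoSet

open MeasureTheory Filter Topology Set Pool.Agent.H21.Dim
open scoped ENNReal NNReal

/-- lower bound on the dimension of the image of good points -/
lemma image_dim {k : ℕ} {u v : ℤ} {β : ℝ} {r : ℝ≥0} (hβ : 0 < β) (hβ1 : β < 1 / 4)
    (hr : 0 < r) (hβr : β ^ (r : ℝ) = 1 / 2) (B : Set (ℝ × ℝ)) (hB : B ⊆ Pool.Agent.H21.Dim.A k u v) :
    (r : ℝ≥0∞) * dimH B ≤ dimH (F β k '' B) := by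
  classical
  have hβ' : β < 1 := by linarith
  set c : ℝ := (1 - 4 * β) / (1 - β) with hc
  have hc0 : 0 < c := div_pos (by linarith) (by linarith)
  set C : ℝ≥0 := Real.toNNReal ((c⁻¹) ^ (r : ℝ)) with hC
  set g := Function.invFunOn (F β k) B with hg
  have hgB : ∀ y ∈ F β k '' B, g y ∈ B := fun y hy => Function.invFunOn_mem hy
  have hFg : ∀ y ∈ F β k '' B, F β k (g y) = y := fun y hy => Function.invFunOn_eq hy
  have hinj : ∀ p ∈ B, ∀ p' ∈ B, F β k p = F β k p' → p = p' := by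
    intro p hp p' hp' h
    by_contra hne
    obtain ⟨m, h1, h2⟩ := separation hβ hβ1 (hB hp) (hB hp') hne
    rw [h, sub_self, abs_zero] at h2
    have : 0 < β ^ m * c := by positivity
    linarith
  have himg : g '' (F β k '' B) = B := by
    ext p
    constructor
    · rintro ⟨y, hy, rfl⟩; exact hgB y hy
    · intro hp
      refine ⟨F β k p, ⟨p, hp, rfl⟩, ?_⟩
      exact hinj _ (hgB _ ⟨p, hp, rfl⟩) _ hp (hFg _ ⟨p, hp, rfl⟩)
  have hH : HolderOnWith C r g (F β k '' B) := by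
    intro y hy y' hy'
    have e1 : (C : ℝ≥0∞) = ENNReal.ofReal ((c⁻¹) ^ (r : ℝ)) := rfl
    rw [e1, edist_dist, edist_dist, ENNReal.ofReal_rpow_of_nonneg dist_nonneg (by positivity),
      ← ENNReal.ofReal_mul (by positivity)]
    apply ENNReal.ofReal_le_ofReal
    by_cases hne : g y = g y'
    · rw [hne, dist_self]; positivity
    · obtain ⟨m, h1, h2⟩ := separation hβ hβ1 (hB (hgB y hy)) (hB (hgB y' hy')) hne
      rw [hFg y hy, hFg y' hy'] at h2
      rw [← hc] at h2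
      have h3 : β ^ m ≤ c⁻¹ * |y - y'| := by
        rw [inv_mul_eq_div, le_div_iff₀ hc0]; exact h2
      have h4 : (1 / 2 : ℝ) ^ m = (β ^ m) ^ (r : ℝ) := by
        rw [← Real.rpow_natCast, ← Real.rpow_natCast, ← Real.rpow_mul hβ.le, mul_comm,
          Real.rpow_mul hβ.le, hβr]
      calc dist (g y) (g y') ≤ (1 / 2 : ℝ) ^ m := h1
        _ = (β ^ m) ^ (r : ℝ) := h4
        _ ≤ (c⁻¹ * |y - y'|) ^ (r : ℝ) := Real.rpow_le_rpow (by positivity) h3 (by positivity)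
        _ = (c⁻¹) ^ (r : ℝ) * dist y y' ^ (r : ℝ) := by
            rw [Real.mul_rpow (by positivity) (abs_nonneg _), Real.dist_eq]
  have h := hH.dimH_image_le hr
  rw [himg] at h
  rw [ENNReal.le_div_iff_mul_le (Or.inl (by exact_mod_cast hr.ne')) (Or.inl (by simp))] at h
  rwa [mul_comm]

theorem plane (s : ℝ≥0) (hs : 0 < s) (hs1 : s < 1) (E : Set (ℝ × ℝ)) (hE : dimH E = 1 + s) :
    ∃ f : ℝ × ℝ → ℝ, Continuous f ∧ (s : ℝ≥0∞) < dimH (f '' E) := by
  classical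
  -- parameters
  have hs' : (0 : ℝ) < s := by exact_mod_cast hs
  have hs1' : (s : ℝ) < 1 := by exact_mod_cast hs1
  have h1 : (s : ℝ) / (1 + s) < 1 / 2 := by
    rw [div_lt_div_iff₀ (by linarith) (by norm_num)]; linarith
  obtain ⟨r, hr1, hr2⟩ := exists_between h1
  have hr0 : 0 < r := lt_trans (by positivity) hr1
  have hrs : (s : ℝ) < r * (1 + s) := by rwa [div_lt_iff₀ (by linarith)] at hr1
  set β : ℝ := (1 / 2 : ℝ) ^ (1 / r) with hβ
  have hβ0 : 0 < β := by positivity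
  have hβ1 : β < 1 / 4 := by
    have : (1 / 4 : ℝ) = (1 / 2 : ℝ) ^ (2 : ℝ) := by norm_num
    rw [this]
    apply Real.rpow_lt_rpow_of_exponent_gt (by norm_num) (by norm_num)
    rw [lt_div_iff₀ hr0]; linarith
  have hβr : β ^ r = 1 / 2 := by
    rw [hβ, ← Real.rpow_mul (by norm_num), one_div_mul_cancel hr0.ne', Real.rpow_one]
  set r' : ℝ≥0 := ⟨r, hr0.le⟩ with hr'
  have hr'0 : 0 < r' := by exact_mod_cast hr0
  -- some piece has dimension larger than `s / r`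
  set T : ℝ≥0 := max 1 (s / r') with hT
  have hT1 : (T : ℝ≥0∞) < 1 + s := by
    have : T < 1 + s := by
      rw [hT]
      refine max_lt (lt_add_of_pos_right 1 hs) ?_
      rw [div_lt_iff₀ hr'0]
      have : (s : ℝ) < (1 + s) * r := by linarith
      exact_mod_cast this
    exact_mod_cast this
  have hcover : E ⊆ (Zx ∪ Zy) ∪ ⋃ q : ℕ × ℤ × ℤ, E ∩ Pool.Agent.H21.Dim.A q.1 q.2.1 q.2.2 := by
    intro p hp
    by_cases hx : p ∈ Zx
    · exact Or.inl (Or.inl hx)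
    by_cases hy : p ∈ Zy
    · exact Or.inl (Or.inr hy)
    right
    unfold Zx at hx
    unfold Zy at hy
    simp only [Set.mem_ofPred_eq, not_frequently, not_not] at hx hy
    obtain ⟨k1, hk1⟩ := eventually_atTop.mp hx
    obtain ⟨k2, hk2⟩ := eventually_atTop.mp hy
    refine Set.mem_iUnion.mpr ⟨(max k1 k2, ⌊(2 : ℝ) ^ (max k1 k2) * p.1⌋,
      ⌊(2 : ℝ) ^ (max k1 k2) * p.2⌋), hp, ?_, rfl, rfl⟩
    intro j hj
    exact ⟨hk1 j (le_trans (le_max_left _ _) hj), hk2 j (le_trans (le_max_right _ _) hj)⟩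
  have hpiece : ∃ q : ℕ × ℤ × ℤ, (T : ℝ≥0∞) < dimH (E ∩ Pool.Agent.H21.Dim.A q.1 q.2.1 q.2.2) := by
    by_contra hcon
    push Not at hcon
    have h2 : dimH E ≤ T := by
      refine (dimH_mono hcover).trans ?_
      rw [dimH_union, dimH_union, dimH_iUnion]
      refine max_le (max_le (dimH_Zx.trans ?_) (dimH_Zy.trans ?_)) (iSup_le hcon)
      · exact_mod_cast le_max_left (1 : ℝ≥0) (s / r')
      · exact_mod_cast le_max_left (1 : ℝ≥0) (s / r')
    rw [hE] at h2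
    exact absurd hT1 (not_lt.mpr h2)
  obtain ⟨⟨k, u, v⟩, hq⟩ := hpiece
  refine ⟨F β k, F_cont hβ0 (by linarith), ?_⟩
  have h3 := image_dim (r := r') hβ0 hβ1 hr'0 hβr (E ∩ Pool.Agent.H21.Dim.A k u v) Set.inter_subset_right
  have h4 : (s : ℝ≥0∞) ≤ r' * T := by
    have : s ≤ r' * T := by
      calc s = r' * (s / r') := by rw [mul_div_cancel₀ _ hr'0.ne']
        _ ≤ r' * T := by gcongr; exact le_max_right _ _
    exact_mod_cast this
  calc (s : ℝ≥0∞) ≤ r' * T := h4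
    _ < r' * dimH (E ∩ Pool.Agent.H21.Dim.A k u v) := by
        apply (ENNReal.mul_lt_mul_iff_right (by exact_mod_cast hr'0.ne') (by simp)).mpr hq
    _ ≤ dimH (F β k '' (E ∩ Pool.Agent.H21.Dim.A k u v)) := h3
    _ ≤ dimH (F β k '' E) := dimH_mono (Set.image_mono Set.inter_subset_left)

/-- For every `s ∈ (0,1)` and every set `E` in the Euclidean plane of Hausdorff dimension `1 + s`
there is a continuous `f : ℝ² → ℝ` with `dim_H f(E) > s`. -/
theorem result (s : ℝ≥0) (hs : 0 < s) (hs1 : s < 1) (E : Set (EuclideanSpace ℝ (Fin 2)))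
    (hE : dimH E = 1 + s) :
    ∃ f : EuclideanSpace ℝ (Fin 2) → ℝ, Continuous f ∧ (s : ℝ≥0∞) < dimH (f '' E) := by
  let φ : EuclideanSpace ℝ (Fin 2) ≃L[ℝ] ℝ × ℝ :=
    (EuclideanSpace.equiv (Fin 2) ℝ).trans (ContinuousLinearEquiv.finTwoArrow ℝ ℝ)
  obtain ⟨f, hf, hf'⟩ := plane s hs hs1 (φ '' E) (by rw [φ.dimH_image]; exact hE)
  refine ⟨f ∘ φ, hf.comp φ.continuous, ?_⟩
  rwa [Set.image_comp]

end Pool.Agent.Results.MP_2d1133_lc.NoSet
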